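import Pool.Agent.H56.E.Base
import Pool.Agent.H56.E.H56.G3.TI

/-!
# Theorem (G), MP_c59857_nt, section 3b, row EQ: the energy on the multiples of `q` does not
increase with the length
-/

set_option autoImplicit false

namespace Pool.Agent.H56.E.H61.G3.EQ

open Pool.Agent.H61.G3.EQ

open Finset Pool.Agent.H6.N4D Pool.Agent.H78.GX.H6.N4D Pool.Agent.H93.EB Pool.Agent.H93.GS Pool.Agent.H56.G3 Pool.Agent.H56.E.H56.G3

/-- the number of multiples of `q` in an interval -/
theorem card_dvd (q a r : ℕ) (hq : 1 ≤ q) :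
    q * ((Ioc a (a + r)).filter (fun m => q ∣ m)).card ≤ r + q := by
  have hq0 : 0 < q := hq
  have h1 : ((Ioc a (a + r)).filter (fun m => q ∣ m)).card ≤
      (Ioc (a / q) ((a + r) / q)).card := by
    apply card_le_card_of_injOn (fun m => m / q)
    · intro m hm
      rw [mem_coe, mem_filter, mem_Ioc] at hm
      obtain ⟨⟨h1, h2⟩, k, hk⟩ := hm
      rw [mem_coe, mem_Ioc]
      refine ⟨?_, Nat.div_le_div_right h2⟩
      show a / q < m / q
      rw [hk, Nat.mul_div_cancel_left k hq0]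
      rw [Nat.div_lt_iff_lt_mul hq0, mul_comm]
      rw [hk] at h1
      exact h1
    · intro m hm m' hm' h
      rw [mem_coe, mem_filter] at hm hm'
      obtain ⟨k, hk⟩ := hm.2
      obtain ⟨k', hk'⟩ := hm'.2
      simp only at h
      rw [hk, hk', Nat.mul_div_cancel_left k hq0, Nat.mul_div_cancel_left k' hq0] at h
      rw [hk, hk', h]
  rw [Nat.card_Ioc] at h1
  have h2 : (a + r) / q ≤ a / q + r / q + 1 := by
    rw [Nat.add_div hq0]
    split_ifs <;> omega
  have h3 : ((Ioc a (a + r)).filter (fun m => q ∣ m)).card ≤ r / q + 1 := by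
    refine h1.trans ?_
    rw [Nat.sub_le_iff_le_add]
    refine h2.trans (le_of_eq ?_)
    ring
  calc q * ((Ioc a (a + r)).filter (fun m => q ∣ m)).card ≤ q * (r / q + 1) :=
        Nat.mul_le_mul_left q h3
    _ = q * (r / q) + q := by ring
    _ ≤ r + q := Nat.add_le_add_right (Nat.mul_div_le r q) q

/-- the weighted integrand -/
noncomputable def w (lam : ℕ → ℝ) (g : Ex) (q m : ℕ) : ℝ := if q ∣ m then jj lam g m * q else 0

theorem sum_Ioc_range (a M : ℕ) (F : ℕ → ℝ) :
    ∑ m ∈ Ioc a (a + M), F m = ∑ r ∈ range M, F (a + 1 + r) := by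
  have h1 : Ioc a (a + M) = Ico (a + 1) (a + 1 + M) := by
    ext x
    rw [mem_Ioc, mem_Ico]
    omega
  rw [h1, Finset.sum_Ico_eq_sum_range, Nat.add_sub_cancel_left]

theorem J_eq (th : ℝ) (lam : ℕ → ℝ) (q : ℕ) {N : ℕ} (hN : 1 ≤ N) (n : ℕ) (g : Ex) :
    N * J th lam q N n g = ∑ r ∈ range N, w lam g q (n + 1 + r) - 2 * th * N * g.nm := by
  have hN0 : (N : ℝ) ≠ 0 := by
    have : N ≠ 0 := by omega
    exact_mod_cast this
  rw [← sum_Ioc_range n N (w lam g q)]
  have h1 : ∑ m ∈ Ioc n (n + N), w lam g q m =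
      (∑ m ∈ (Ioc n (n + N)).filter (fun m => q ∣ m), jj lam g m) * q := by
    rw [sum_mul, sum_filter]
    rfl
  rw [h1]
  show (N : ℝ) * ((∑ m ∈ (Ioc n (n + N)).filter (fun m => q ∣ m), jj lam g m) * q / N -
    2 * th * g.nm) = _
  field_simp

theorem sum_w_le (lam : ℕ → ℝ) (g : Ex) (q : ℕ) (hq : 1 ≤ q) {B : ℝ}
    (hB : ∀ m, |jj lam g m| ≤ B) (a r : ℕ) :
    |∑ j ∈ range r, w lam g q (a + 1 + j)| ≤ B * (r + q) := by
  have hB0 : 0 ≤ B := (abs_nonneg _).trans (hB 0)
  rw [← sum_Ioc_range a r (w lam g q)]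
  refine (abs_sum_le_sum_abs _ _).trans ?_
  have h1 : ∀ m ∈ Ioc a (a + r), |w lam g q m| ≤ if q ∣ m then B * q else 0 := by
    intro m _
    unfold w
    split_ifs with h
    · rw [abs_mul, Nat.abs_cast]
      exact mul_le_mul_of_nonneg_right (hB m) (Nat.cast_nonneg q)
    · rw [abs_zero]
  refine (sum_le_sum h1).trans ?_
  rw [← sum_filter, sum_const, nsmul_eq_mul]
  have h2 : (q : ℝ) * ((Ioc a (a + r)).filter (fun m => q ∣ m)).card ≤ r + q := by
    exact_mod_cast card_dvd q a r hq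
  calc (((Ioc a (a + r)).filter (fun m => q ∣ m)).card : ℝ) * (B * q) =
        B * ((q : ℝ) * ((Ioc a (a + r)).filter (fun m => q ∣ m)).card) := by ring
    _ ≤ B * (r + q) := mul_le_mul_of_nonneg_left h2 hB0

theorem shift_eq (u : ℕ → ℝ) (N r : ℕ) :
    ∑ j ∈ range N, u j - ∑ j ∈ range N, u (r + j) =
      ∑ j ∈ range r, u j - ∑ j ∈ range r, u (N + j) := by
  have h1 := sum_range_add u N r
  have h2 := sum_range_add u r N
  rw [add_comm r N, h1] at h2
  linarith

theorem pf_EQ (hRB : T_RB) : T_EQ := by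
  intro th lam q M N n hth hth1 hlam hq hqM hMN
  have hM : 1 ≤ M := hq.trans hqM
  have hN : 1 ≤ N := hM.trans hMN
  have hNR : (0 : ℝ) < N := by exact_mod_cast (by omega : 0 < N)
  have hMR : (0 : ℝ) < M := by exact_mod_cast (by omega : 0 < M)
  have hqM' : (q : ℝ) ≤ M := by exact_mod_cast hqM
  refine le_of_forall_pos_le_add fun ε hε => ?_
  obtain ⟨-, -, -, -, h5, h6, h7⟩ := hRB th lam q N n hth hlam hq hN
  obtain ⟨g, hg1, hg2⟩ := h5 (min ε 1) (lt_min hε one_pos)
  have hJ : -1 ≤ J th lam q N n g := by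
    have := min_le_right ε 1
    linarith
  have hnm : g.nm ≤ 2 / th := h6 g (hqM.trans hMN) hJ
  have hnm0 : 0 ≤ g.nm := by
    unfold Ex.nm
    positivity
  have h2 : (2 : ℝ) / th ≤ 2 / th ^ 2 := by
    apply div_le_div_of_nonneg_left (by norm_num) (by positivity)
    nlinarith
  have hq8 : 2 * g.nm + g.nm ^ 2 ≤ 8 / th ^ 2 := by
    have e1 : g.nm ^ 2 ≤ (2 / th) ^ 2 := pow_le_pow_left₀ hnm0 hnm 2
    have e2 : (2 / th) ^ 2 = 4 / th ^ 2 := by rw [div_pow]; norm_num
    have e3 : (8 : ℝ) / th ^ 2 = 2 * (2 / th ^ 2) + 4 / th ^ 2 := by ring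
    rw [e3]
    linarith
  obtain ⟨B, hBd⟩ : ∃ B : ℝ, B = 2 * g.nm + g.nm ^ 2 := ⟨_, rfl⟩
  have hB : ∀ m, |jj lam g m| ≤ B := fun m => by
    rw [hBd]
    exact (h7 g m).2
  have hB0 : 0 ≤ B := (abs_nonneg _).trans (hB 0)
  -- the sum over the pieces
  have hpiece : ∀ j ∈ range N, ∑ r ∈ range M, w lam g q (n + j + 1 + r) - 2 * th * M * g.nm ≤
      M * En th lam q M (n + j) := by
    intro j _
    rw [← J_eq th lam q hM (n + j) g]
    refine mul_le_mul_of_nonneg_left ?_ hMR.le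
    exact le_ciSup (hRB th lam q M (n + j) hth hlam hq hM).1 g
  have hsum := Finset.sum_le_sum hpiece
  rw [Finset.sum_sub_distrib, Finset.sum_const, card_range, nsmul_eq_mul, ← Finset.mul_sum,
    Finset.sum_comm] at hsum
  have hcmp : ∀ r ∈ range M, ∑ j ∈ range N, w lam g q (n + 1 + j) - 4 * M * B ≤
      ∑ j ∈ range N, w lam g q (n + j + 1 + r) := by
    intro r hr
    have h1 := shift_eq (fun t => w lam g q (n + 1 + t)) N r
    have h2 : ∑ j ∈ range N, w lam g q (n + 1 + (r + j)) =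
        ∑ j ∈ range N, w lam g q (n + j + 1 + r) :=
      Finset.sum_congr rfl fun j _ => by
        have : n + 1 + (r + j) = n + j + 1 + r := by omega
        rw [this]
    rw [h2] at h1
    have h3 := abs_le.1 (sum_w_le lam g q hq hB n r)
    have h4 := abs_le.1 (sum_w_le lam g q hq hB (n + N) r)
    have h8 : ∑ j ∈ range r, w lam g q (n + 1 + (N + j)) =
        ∑ j ∈ range r, w lam g q (n + N + 1 + j) :=
      Finset.sum_congr rfl fun j _ => by
        have : n + 1 + (N + j) = n + N + 1 + j := by omega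
        rw [this]
    rw [h8] at h1
    have h9 : (r : ℝ) ≤ M := by exact_mod_cast (Finset.mem_range.1 hr).le
    have h10 : B * ((r : ℝ) + q) ≤ 2 * M * B := by
      have : B * ((r : ℝ) + q) ≤ B * (2 * M) := mul_le_mul_of_nonneg_left (by linarith) hB0
      linarith
    linarith [h3.1, h3.2, h4.1, h4.2]
  have hsum2 := Finset.sum_le_sum hcmp
  rw [Finset.sum_const, card_range, nsmul_eq_mul] at hsum2
  have h8 : (M : ℝ) * (N * J th lam q N n g) ≤
      M * (∑ j ∈ range N, En th lam q M (n + j) + 4 * M * B) := by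
    rw [J_eq th lam q hN n g]
    linarith
  have h9 := le_of_mul_le_mul_left h8 hMR
  have h3 : En th lam q N n ≤ J th lam q N n g + ε := by
    have e1 : df th lam q N n g ≤ ε := hg1.trans (min_le_left _ _)
    unfold df at e1
    linarith
  have h4 : (N : ℝ) * J th lam q N n g ≤ N * (sl N n (En th lam q M) +
      100 / th ^ 2 * (M / N)) := by
    have e1 : (N : ℝ) * sl N n (En th lam q M) = ∑ j ∈ range N, En th lam q M (n + j) := by
      unfold sl
      field_simp
    have e2 : (N : ℝ) * (100 / th ^ 2 * (M / N)) = M * (100 / th ^ 2) := by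
      field_simp
    rw [mul_add, e1, e2]
    have e3 : 4 * (M : ℝ) * B ≤ 4 * M * (8 / th ^ 2) := by
      rw [hBd]
      exact mul_le_mul_of_nonneg_left hq8 (by positivity)
    have e4 : 4 * (M : ℝ) * (8 / th ^ 2) ≤ M * (100 / th ^ 2) := by
      have e5 : 4 * (M : ℝ) * (8 / th ^ 2) = M * (32 / th ^ 2) := by ring
      rw [e5]
      apply mul_le_mul_of_nonneg_left _ hMR.le
      apply div_le_div_of_nonneg_right (by norm_num) (by positivity)
    linarith
  have h11 := le_of_mul_le_mul_left h4 hNR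
  linarith

end Pool.Agent.H56.E.H61.G3.EQ
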